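import Pool.Agent.Run7.h453.ST.Zeta

/-! Dedekind zeta functions: analytic outside of `1`, the functional equation of the orders. -/

set_option autoImplicit false
set_option linter.unusedSectionVars false

namespace Pool.Agent.Run7.h453.CB

open NumberField Filter Topology Set Complex NumberField.InfinitePlace NumberField.Units
open Pool.Agent.Run7.h453.ST
open Run7.h375.Zeta

variable (K : Type) [Field K] [NumberField K]

theorem good : ∃ Z : ℂ → ℂ, (∀ s, MeromorphicAt Z s) ∧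
    (∀ s : ℂ, 1 < s.re → Z s = dedekindZeta K s) ∧
    (∀ s : ℂ, s ≠ 0 → s ≠ 1 → AnalyticAt ℂ Z s) ∧
    (∀ s : ℂ, 0 < s.re → s.re < 1 → meromorphicOrderAt Z (1 - s) = meromorphicOrderAt Z s) := by
  obtain ⟨P, C, V, hC, hV, hk, hf, hg, h1, h2⟩ := data K
  have hCc : (C : ℂ) ≠ 0 := by exact_mod_cast hC.ne'
  have hVc : (V : ℂ) ≠ 0 := by exact_mod_cast hV.ne'
  set N : ℝ := (Ideal.absNorm (differentIdeal ℤ (𝓞 K)) : ℝ) with hN
  have hN0 : 0 < N := by
    have h3 : Ideal.absNorm (differentIdeal ℤ (𝓞 K)) ≠ 0 := by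
      rw [ne_eq, Ideal.absNorm_eq_zero_iff]
      exact differentIdeal_ne_bot
    rw [hN]
    exact_mod_cast Nat.pos_of_ne_zero h3
  have hNc : (N : ℂ) ≠ 0 := by exact_mod_cast hN0.ne'
  have hk' : ((P.k : ℝ) : ℂ) = 1 := by rw [hk, ofReal_one]
  set Ga : ℂ → ℂ := fun s => (Gammaℝ s)⁻¹ ^ (nrRealPlaces K + nrComplexPlaces K) *
    (Gammaℝ (s + 1))⁻¹ ^ (nrComplexPlaces K) with hGa
  have hGd : Differentiable ℂ Ga := by
    have hd := differentiable_Gammaℝ_inv
    exact (hd.pow _).mul ((hd.comp (differentiable_id.add_const (1 : ℂ))).pow _)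
  have hGne : ∀ s : ℂ, 0 < s.re → Ga s ≠ 0 := by
    intro s hs
    refine mul_ne_zero (pow_ne_zero _ (inv_ne_zero ?_)) (pow_ne_zero _ (inv_ne_zero ?_))
    · exact Gammaℝ_ne_zero_of_re_pos hs
    · exact Gammaℝ_ne_zero_of_re_pos (by rw [Complex.add_re, Complex.one_re]; linarith)
  have mΛ : ∀ s, MeromorphicAt P.Λ s := by
    intro s
    have : P.Λ = fun s => P.Λ₀ s - (1 / s) • P.f₀ - (P.ε / (P.k - s)) • P.g₀ := rfl
    rw [this]
    have m2 : MeromorphicAt P.Λ₀ s := (P.differentiable_Λ₀.analyticAt s).meromorphicAt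
    have m3 : MeromorphicAt (fun s : ℂ => (1 / s) • P.f₀) s := by fun_prop
    have m4 : MeromorphicAt (fun s : ℂ => (P.ε / (P.k - s)) • P.g₀) s := by fun_prop
    exact (m2.sub m3).sub m4
  have aΛ : ∀ s, s ≠ 0 → s ≠ 1 → AnalyticAt ℂ P.Λ s := by
    intro s h0 h3
    have hopen : IsOpen ({0, 1}ᶜ : Set ℂ) := (Set.toFinite _).isClosed.isOpen_compl
    have hd : DifferentiableOn ℂ P.Λ ({0, 1}ᶜ : Set ℂ) := by
      intro z hz
      rw [mem_compl_iff, mem_insert_iff, mem_singleton_iff, not_or] at hz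
      refine (P.differentiableAt_Λ (Or.inl hz.1) (Or.inl ?_)).differentiableWithinAt
      rw [hk']
      exact hz.2
    exact hd.analyticAt (hopen.mem_nhds (by
      rw [mem_compl_iff, mem_insert_iff, mem_singleton_iff, not_or]
      exact ⟨h0, h3⟩))
  -- the functional equation everywhere
  have hfe : ∀ z : ℂ, (fun s => P.Λ (1 - s)) =ᶠ[𝓝[≠] z] fun s => (V : ℂ)⁻¹ * (N : ℂ) ^ s * P.Λ s := by
    have m1 : ∀ z, MeromorphicAt (fun s => P.Λ (1 - s)) z := fun z =>
      (mΛ (1 - z)).comp_analyticAt (g := fun s : ℂ => 1 - s) (by fun_prop)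
    have m2 : ∀ z, MeromorphicAt (fun s => (V : ℂ)⁻¹ * (N : ℂ) ^ s * P.Λ s) z := by
      intro z
      refine MeromorphicAt.mul ?_ (mΛ z)
      refine AnalyticAt.meromorphicAt ?_
      have hd : Differentiable ℂ fun s : ℂ => (V : ℂ)⁻¹ * (N : ℂ) ^ s :=
        (differentiable_id.const_cpow (Or.inl hNc)).const_mul _
      exact hd.analyticAt z
    exact unique_cont m1 m2 h2
  refine ⟨fun s => (C : ℂ)⁻¹ * P.Λ s * Ga s, ?_, ?_, ?_, ?_⟩
  · intro s
    exact ((MeromorphicAt.const _ _).mul (mΛ s)).mul (hGd.analyticAt s).meromorphicAt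
  · intro s hs
    simp only [hGa]
    rw [h1 s hs, GaK_eq]
    have g1 : Gammaℝ s ≠ 0 := Gammaℝ_ne_zero_of_re_pos (by linarith)
    have g2 : Gammaℝ (s + 1) ≠ 0 := Gammaℝ_ne_zero_of_re_pos (by simp; linarith)
    rw [inv_pow, inv_pow]
    field_simp
  · intro s h0 h3
    exact (analyticAt_const.mul (aΛ s h0 h3)).mul (hGd.analyticAt s)
  · intro s h0 h3
    -- the orders of `Z` and of `Λ` agree
    have key : ∀ z : ℂ, 0 < z.re → meromorphicOrderAt (fun s => (C : ℂ)⁻¹ * P.Λ s * Ga s) z =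
        meromorphicOrderAt P.Λ z := by
      intro z hz
      have e1 : (fun s => (C : ℂ)⁻¹ * P.Λ s * Ga s) = (fun s => (C : ℂ)⁻¹ * Ga s) * P.Λ := by
        funext s
        simp only [Pi.mul_apply]
        ring
      have a1 : AnalyticAt ℂ (fun s => (C : ℂ)⁻¹ * Ga s) z := analyticAt_const.mul (hGd.analyticAt z)
      have o1 : meromorphicOrderAt (fun s => (C : ℂ)⁻¹ * Ga s) z = 0 := by
        rw [← tendsto_ne_zero_iff_meromorphicOrderAt_eq_zero a1.meromorphicAt]
        exact ⟨_, mul_ne_zero (inv_ne_zero hCc) (hGne z hz),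
          a1.continuousAt.tendsto.mono_left nhdsWithin_le_nhds⟩
      rw [e1, meromorphicOrderAt_mul a1.meromorphicAt (mΛ z), o1, zero_add]
    have h4 : 0 < (1 - s).re := by rw [Complex.sub_re, Complex.one_re]; linarith
    rw [key _ h4, key _ h0]
    -- the reflection
    have o2 : meromorphicOrderAt (fun s => P.Λ (1 - s)) s = meromorphicOrderAt P.Λ (1 - s) := by
      have := meromorphicOrderAt_comp_of_deriv_ne_zero (f := P.Λ) (g := fun s : ℂ => 1 - s) (x := s)
        (by fun_prop) (by simp)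
      exact this
    rw [← o2, meromorphicOrderAt_congr (hfe s)]
    have a1 : AnalyticAt ℂ (fun s : ℂ => (V : ℂ)⁻¹ * (N : ℂ) ^ s) s := by
      have hd : Differentiable ℂ fun s : ℂ => (V : ℂ)⁻¹ * (N : ℂ) ^ s :=
        (differentiable_id.const_cpow (Or.inl hNc)).const_mul _
      exact hd.analyticAt s
    have o1 : meromorphicOrderAt (fun s : ℂ => (V : ℂ)⁻¹ * (N : ℂ) ^ s) s = 0 := by
      rw [← tendsto_ne_zero_iff_meromorphicOrderAt_eq_zero a1.meromorphicAt]
      refine ⟨_, mul_ne_zero (inv_ne_zero hVc) ?_,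
        a1.continuousAt.tendsto.mono_left nhdsWithin_le_nhds⟩
      rw [Complex.cpow_ne_zero_iff]
      exact Or.inl hNc
    have e2 : (fun s => (V : ℂ)⁻¹ * (N : ℂ) ^ s * P.Λ s) =
        (fun s : ℂ => (V : ℂ)⁻¹ * (N : ℂ) ^ s) * P.Λ := rfl
    rw [e2, meromorphicOrderAt_mul a1.meromorphicAt (mΛ s), o1, zero_add]

variable {K}

/-- the order at a point of the strip is not negative -/
theorem order_nonneg {Z : ℂ → ℂ} (hZ : ∀ s, MeromorphicAt Z s)
    (hZ1 : ∀ s : ℂ, 1 < s.re → Z s = dedekindZeta K s) {s : ℂ} (h1 : s ≠ 1) :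
    0 ≤ meromorphicOrderAt Z s := by
  by_cases h0 : s = 0
  · subst h0
    rw [(lead_zeta K hZ hZ1).1]
    exact_mod_cast Nat.zero_le _
  · obtain ⟨Z', m', e', a', -⟩ := good K
    have h2 : Z =ᶠ[𝓝[≠] s] Z' := unique_cont hZ m' (fun s hs => by rw [hZ1 s hs, e' s hs]) s
    rw [meromorphicOrderAt_congr h2]
    exact (a' s h0 h1).meromorphicOrderAt_nonneg

/-- the functional equation of the orders -/
theorem order_symm {Z : ℂ → ℂ} (hZ : ∀ s, MeromorphicAt Z s)
    (hZ1 : ∀ s : ℂ, 1 < s.re → Z s = dedekindZeta K s) {s : ℂ} (h0 : 0 < s.re) (h1 : s.re < 1) :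
    meromorphicOrderAt Z (1 - s) = meromorphicOrderAt Z s := by
  obtain ⟨Z', m', e', -, f'⟩ := good K
  have h2 : ∀ z, Z =ᶠ[𝓝[≠] z] Z' := unique_cont hZ m' (fun s hs => by rw [hZ1 s hs, e' s hs])
  rw [meromorphicOrderAt_congr (h2 s), meromorphicOrderAt_congr (h2 (1 - s))]
  exact f' s h0 h1

/-- no zeros in the half-plane `Re s > 1` -/
theorem order_right {Z : ℂ → ℂ} (hZ : ∀ s, MeromorphicAt Z s)
    (hZ1 : ∀ s : ℂ, 1 < s.re → Z s = dedekindZeta K s) {s : ℂ} (h1 : 1 < s.re) :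
    meromorphicOrderAt Z s = 0 := by
  have hopen : IsOpen {z : ℂ | 1 < z.re} := isOpen_lt continuous_const Complex.continuous_re
  have E := eg_one K
  -- the zeta function is an exponential
  have h2 : ∀ w : ℂ, 1 < w.re → dedekindZeta K w =
      Complex.exp (Pool.Agent.Run7.h453.CX.cser (lamI K) (Pool.Agent.Run7.h453.ST.cI
        (K := K) (L := K) fun _ => 1) w) := by
    intro w hw
    have h3 := (Pool.Agent.K4H74.SC.logTerm_summable (K := K) (L := K) (fun _ => 1) hw).hasSum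
    rw [← log_zeta hw h3]
    congr 1
    unfold Pool.Agent.Run7.h453.CX.cser
    exact tsum_congr fun x => logTerm_eq _ w x
  have han : AnalyticAt ℂ (fun w => Complex.exp (Pool.Agent.Run7.h453.CX.cser (lamI K)
      (Pool.Agent.Run7.h453.ST.cI (K := K) (L := K) fun _ => 1) w)) s :=
    (Pool.Agent.Run7.h453.CX.cser_an (A := 1) lamI_nonneg (fun σ hσ => cI_summable _ hσ) h1).cexp
  have h4 : Z =ᶠ[𝓝[≠] s] fun w => Complex.exp (Pool.Agent.Run7.h453.CX.cser (lamI K)
      (Pool.Agent.Run7.h453.ST.cI (K := K) (L := K) fun _ => 1) w) := by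
    filter_upwards [(hopen.mem_nhds h1 : _ ∈ 𝓝 s) |> fun h => mem_nhdsWithin_of_mem_nhds h] with w hw
    rw [hZ1 w hw, h2 w hw]
  rw [meromorphicOrderAt_congr h4,
    ← tendsto_ne_zero_iff_meromorphicOrderAt_eq_zero han.meromorphicAt]
  exact ⟨_, Complex.exp_ne_zero _, han.continuousAt.tendsto.mono_left nhdsWithin_le_nhds⟩

end Pool.Agent.Run7.h453.CB
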