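import Pool.Agent.Run7.h453.CB.One
import Pool.Agent.Run7.h453.CB.Fun

/-! The primes which split completely, at the point `1 / 2`. -/

set_option autoImplicit false
set_option linter.unusedSectionVars false

namespace Pool.Agent.Run7.h453.CB

open NumberField IntermediateField IsDedekindDomain Filter Topology Set Asymptotics
open Pool.Agent.K4H74 Pool.Agent.K4H74.ST
open Pool.Agent.Run7.h453.CX Pool.Agent.Run7.h453.ST Pool.Agent.W187.UR
open scoped ArithmeticFunction.Moebius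

variable {K L : Type} [Field K] [NumberField K] [Field L] [NumberField L] [Algebra K L]
  [IsGalois K L]

open Classical in
theorem single_div (σ g : L ≃ₐ[K] L) (h : Div σ g) :
    (Pi.single 1 1 : (L ≃ₐ[K] L) → ℂ) g = (Pi.single 1 1 : (L ≃ₐ[K] L) → ℂ) σ := by
  obtain ⟨x, hx⟩ := h
  have h1 : g = 1 ↔ σ = 1 := by
    constructor
    · rintro rfl
      rw [mul_one, inv_mul_cancel, Subgroup.zpowers_one_eq_bot] at hx
      exact Subgroup.zpowers_eq_bot.1 hx.symm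
    · rintro rfl
      rw [Subgroup.zpowers_one_eq_bot] at hx
      have h2 := Subgroup.zpowers_eq_bot.1 hx
      have h3 : g = x * (x⁻¹ * g * x) * x⁻¹ := by group
      rw [h3, h2, mul_one, mul_inv_cancel]
  simp only [Pi.single_apply, h1]

open Classical in
theorem AV_single (x : Subgroup (L ≃ₐ[K] L) → ℂ) :
    AV (Pi.single 1 1 : (L ≃ₐ[K] L) → ℂ) x = (Nat.card (L ≃ₐ[K] L) : ℂ)⁻¹ * x ⊥ := by
  unfold AV
  congr 1
  rw [Finset.sum_eq_single (1 : L ≃ₐ[K] L)]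
  · unfold av
    simp
  · intro b _ hb
    rw [Pi.single_eq_of_ne hb, zero_mul]
  · intro h
    exact absurd (Finset.mem_univ _) h

open Classical in
theorem sq_single : (Nat.card (L ≃ₐ[K] L) : ℂ) * sqMean (Pi.single 1 1 : (L ≃ₐ[K] L) → ℂ) =
    1 + Nat.card {g : L ≃ₐ[K] L // orderOf g = 2} := by
  have hG : (Nat.card (L ≃ₐ[K] L) : ℂ) ≠ 0 := by exact_mod_cast Nat.card_pos.ne'
  unfold sqMean
  rw [mul_inv_cancel_left₀ hG]
  have h1 : ∀ g : L ≃ₐ[K] L, (Pi.single 1 1 : (L ≃ₐ[K] L) → ℂ) (g ^ 2) =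
      (if g = 1 then 1 else 0) + if orderOf g = 2 then 1 else 0 := by
    intro g
    rw [Pi.single_apply]
    by_cases hg : g = 1
    · subst hg
      simp
    · have h2 : orderOf g = 2 ↔ g ^ 2 = 1 :=
        ⟨fun h => by rw [← h, pow_orderOf_eq_one], fun h => orderOf_eq_prime h hg⟩
      simp only [h2, hg, if_false, zero_add]
  simp only [h1]
  rw [Finset.sum_add_distrib, Finset.sum_ite_eq' Finset.univ (1 : L ≃ₐ[K] L) (fun _ => (1 : ℂ)),
    if_pos (Finset.mem_univ _), ← Finset.sum_filter, Finset.sum_const, nsmul_eq_mul, mul_one,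
    Nat.card_eq_fintype_card, Fintype.card_subtype]

theorem sq_one : sqMean (fun _ : L ≃ₐ[K] L => (1 : ℂ)) = 1 := by
  have hG : (Nat.card (L ≃ₐ[K] L) : ℂ) ≠ 0 := by exact_mod_cast Nat.card_pos.ne'
  unfold sqMean
  rw [Finset.sum_const, Finset.card_univ, nsmul_eq_mul, mul_one, ← Nat.card_eq_fintype_card,
    inv_mul_cancel₀ hG]

theorem exists_Z : ∃ Z : IntermediateField K L → ℂ → ℂ, ∀ F, (∀ s, MeromorphicAt (Z F) s) ∧
      ∀ s : ℂ, 1 < s.re → Z F s = dedekindZeta F s := by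
  have h := fun F : IntermediateField K L => good F
  choose Z h1 h2 _ using h
  exact ⟨Z, fun F => ⟨h1 F, h2 F⟩⟩

theorem ord_bot {Z : IntermediateField K L → ℂ → ℂ} (hZ : ∀ F, (∀ s, MeromorphicAt (Z F) s) ∧
      ∀ s : ℂ, 1 < s.re → Z F s = dedekindZeta F s) {ZL : ℂ → ℂ} (hL : (∀ s, MeromorphicAt ZL s) ∧
      ∀ s : ℂ, 1 < s.re → ZL s = dedekindZeta L s) (s₀ : ℂ) :
    ordF Z s₀ ⊥ = ((meromorphicOrderAt ZL s₀).untop₀ : ℂ) := by
  unfold ordF
  have e : (fixedField (⊥ : Subgroup (L ≃ₐ[K] L)) : IntermediateField K L) ≃+* L := by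
    rw [show fixedField (⊥ : Subgroup (L ≃ₐ[K] L)) = ⊤ by
      rw [← IntermediateField.fixingSubgroup_top]
      exact IsGalois.fixedField_fixingSubgroup ⊤]
    exact (IntermediateField.topEquiv (F := K) (E := L)).toRingEquiv
  have h1 : dedekindZeta (fixedField (⊥ : Subgroup (L ≃ₐ[K] L)) : IntermediateField K L) =
      dedekindZeta L := Run7.h375.CM.zeta_congr e
  have h2 := unique_cont (hZ (fixedField ⊥)).1 hL.1 (fun s hs => by
    rw [(hZ _).2 s hs, hL.2 s hs, h1]) s₀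
  rw [meromorphicOrderAt_congr h2]

theorem cont_one {ZK : ℂ → ℂ} (hK : (∀ s, MeromorphicAt ZK s) ∧
      ∀ s : ℂ, 1 < s.re → ZK s = dedekindZeta K s) : (∀ z, MeromorphicAt ZK z) ∧
      ∀ s : ℂ, 1 < s.re → ∀ l : ℂ, HasSum (SC.logTerm K L (fun _ => 1) s) l →
        ZK s = Complex.exp l :=
  ⟨hK.1, fun s hs l hl => by rw [hK.2 s hs, log_zeta hs hl]⟩

open Classical in
/-- **The bias against the primes which split completely.** -/
theorem split_law {ZK ZL : ℂ → ℂ} (hK : (∀ s, MeromorphicAt ZK s) ∧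
      ∀ s : ℂ, 1 < s.re → ZK s = dedekindZeta K s) (hL : (∀ s, MeromorphicAt ZL s) ∧
      ∀ s : ℂ, 1 < s.re → ZL s = dedekindZeta L s) {γ : ℝ} (hγ : Real.pi / 2 < γ) :
    (fun T : ℝ => (Nat.card (L ≃ₐ[K] L) : ℂ) *
        PA (K := K) (Pi.single 1 1 : (L ≃ₐ[K] L) → ℂ) (1 / 2) γ T -
      PA (K := K) (fun _ : L ≃ₐ[K] L => (1 : ℂ)) (1 / 2) γ T +
      (((meromorphicOrderAt ZL (1 / 2)).untop₀ : ℂ) - (meromorphicOrderAt ZK (1 / 2)).untop₀ +
        1 / 2 * Nat.card {g : L ≃ₐ[K] L // orderOf g = 2}) * Real.log T) =O[atTop]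
      fun _ : ℝ => (1 : ℝ) := by
  obtain ⟨Z, hZ⟩ := exists_Z (K := K) (L := L)
  have hG : (Nat.card (L ≃ₐ[K] L) : ℂ) ≠ 0 := by exact_mod_cast Nat.card_pos.ne'
  have h1 := half_law (fun σ g h => single_div (K := K) (L := L) σ g h) hZ hγ
  have h2 := half_law (f := fun _ : L ≃ₐ[K] L => (1 : ℂ)) (fun _ _ _ => rfl) hZ hγ
  have h3 := (order_eq (f := fun _ : L ≃ₐ[K] L => (1 : ℂ)) (fun _ _ _ => rfl) hZ
    (cont_one hK) (1 / 2)).2
  have h4 := sq_single (K := K) (L := L)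
  rw [AV_single, ord_bot hZ hL] at h1
  rw [← h3, sq_one] at h2
  refine ((h1.const_mul_left (Nat.card (L ≃ₐ[K] L) : ℂ)).sub h2).congr (fun T => ?_)
    (fun _ => rfl)
  set N : ℂ := (Nat.card (L ≃ₐ[K] L) : ℂ) with hN
  set Q := sqMean (Pi.single 1 1 : (L ≃ₐ[K] L) → ℂ) with hQ
  have h5 : N * (N⁻¹ * ((meromorphicOrderAt ZL (1 / 2)).untop₀ : ℂ) + 1 / 2 * Q) =
      ((meromorphicOrderAt ZL (1 / 2)).untop₀ : ℂ) + 1 / 2 * (1 + Nat.card
        {g : L ≃ₐ[K] L // orderOf g = 2}) := by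
    rw [← h4]
    field_simp
  linear_combination (Real.log T : ℂ) * h5

end Pool.Agent.Run7.h453.CB
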