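import Pool.Agent.Run7.h453.ST.Zeta

/-! The rotated law for class sums of Frobenius elements at an arbitrary point `s₀`. -/

set_option autoImplicit false
set_option linter.unusedSectionVars false

namespace Pool.Agent.Run7.h453.CB

open NumberField IntermediateField IsDedekindDomain Filter Topology Set
open Pool.Agent.K4H74 Pool.Agent.K4H74.ST
open Pool.Agent.Run7.h453.CX Pool.Agent.Run7.h453.ST Pool.Agent.W187.UR
open Pool.Agent.W189.ML (om)
open Pool.Agent.N41.RM (order_sh coeff_sh)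

variable {K L : Type} [Field K] [NumberField K] [Field L] [NumberField L] [Algebra K L]

/-- the sum at `s₀` -/
noncomputable def SA (f : (L ≃ₐ[K] L) → ℂ) (s₀ : ℂ) (γ T : ℝ) : ℂ :=
  ∑' x, rterm (lamI K) (SC.logTerm K L f s₀) γ T x

theorem logTerm_shift (f : (L ≃ₐ[K] L) → ℂ) (s₀ w : ℂ) (x : HeightOneSpectrum (𝓞 K) × ℕ+) :
    SC.logTerm K L f s₀ x * Complex.exp (-(w * lamI K x)) = SC.logTerm K L f (s₀ + w) x := by
  rw [logTerm_eq, logTerm_eq, mul_assoc, ← Complex.exp_add]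
  congr 2
  ring

theorem lt_summable (f : (L ≃ₐ[K] L) → ℂ) (s₀ : ℂ) {σ : ℝ} (hσ : 1 - s₀.re < σ) :
    Summable fun x => ‖SC.logTerm K L f s₀ x‖ * Real.exp (-(σ * lamI K x)) := by
  have h1 := (SC.logTerm_summable f (s := s₀ + (σ : ℂ)) (by
    rw [Complex.add_re, Complex.ofReal_re]
    linarith)).norm
  refine h1.congr fun x => ?_
  rw [← logTerm_shift, norm_mul, Complex.norm_exp]
  congr 2
  simp

theorem SA_summable (f : (L ≃ₐ[K] L) → ℂ) (s₀ : ℂ) (γ : ℝ) {T : ℝ} (hT : 0 < T) :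
    Summable fun x => ‖rterm (lamI K) (SC.logTerm K L f s₀) γ T x‖ := by
  have h0 := le_abs_self (1 - s₀.re)
  have h1 := abs_nonneg (1 - s₀.re)
  exact rterm_summable lamI_nonneg (σ := |1 - s₀.re| + 1) (by linarith)
    (lt_summable f s₀ (by linarith)) γ hT

theorem SA_lin {ι : Type} (S : Finset ι) (a : ι → ℂ) (f : ι → (L ≃ₐ[K] L) → ℂ) (s₀ : ℂ) (γ : ℝ)
    {T : ℝ} (hT : 0 < T) :
    SA (fun g => ∑ d ∈ S, a d * f d g) s₀ γ T = ∑ d ∈ S, a d * SA (f d) s₀ γ T := by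
  unfold SA
  simp only [← tsum_mul_left]
  rw [← Summable.tsum_finsetSum fun d _ => ((SA_summable (f d) s₀ γ hT).of_norm).mul_left _]
  refine tsum_congr fun x => ?_
  unfold rterm SC.logTerm
  rw [frobMean_lin, Finset.sum_div, Finset.sum_mul, Finset.sum_mul]
  refine Finset.sum_congr rfl fun d _ => ?_
  ring

/-- **the law at an arbitrary point** -/
theorem law_at (f : (L ≃ₐ[K] L) → ℂ) {Φ : ℂ → ℂ} (s₀ : ℂ)
    (hmer : ∀ x : ℝ, 0 ≤ x → MeromorphicAt Φ (s₀ + x))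
    (heq : ∀ s : ℂ, 1 < s.re → ∀ l : ℂ, HasSum (SC.logTerm K L f s) l → Φ s = Complex.exp l)
    {γ : ℝ} (hγ : Real.pi / 2 < γ) :
    ∃ (m : ℤ) (r : ℂ) (C T₀ : ℝ), meromorphicOrderAt Φ s₀ = m ∧
      Complex.exp r = meromorphicTrailingCoeffAt Φ s₀ ∧
      ∀ T ≥ T₀, ‖-SA f s₀ γ T - (m * (Real.log T - Lam γ) - r)‖ ≤ C / T := by
  have := countable_idx (K := K)
  have hA1 : 1 - s₀.re ≤ max (1 - s₀.re) 1 := le_max_left _ _
  have hA2 : 1 ≤ max (1 - s₀.re) 1 := le_max_right _ _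
  obtain ⟨m, r, C, T₀, hm, hr, h⟩ := gen_law (A := max (1 - s₀.re) 1) (lam := lamI K)
    (c := SC.logTerm K L f s₀) (Φ := fun w => Φ (s₀ + w)) (by linarith) lamI_nonneg
    (fun σ hσ => lt_summable f s₀ (by linarith))
    (fun x hx => (hmer x hx.1).comp_analyticAt (g := fun w : ℂ => s₀ + w) (by fun_prop))
    (fun w hw => by
      have h1 : 1 < (s₀ + w).re := by
        rw [Complex.add_re]
        linarith
      have h2 := (SC.logTerm_summable (K := K) (L := L) f h1).hasSum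
      show Φ (s₀ + w) = _
      rw [heq _ h1 _ h2]
      congr 1
      unfold cser
      exact tsum_congr fun x => (logTerm_shift f s₀ w x).symm) hγ
  rw [coeff_sh] at hr
  rw [order_sh, add_zero] at hm
  exact ⟨m, r, C, T₀, hm, hr, h⟩

end Pool.Agent.Run7.h453.CB
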