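import Pool.Agent.Run7.h453.CB.At

/-! The law at an arbitrary point for the functions which are constant on the divisions. -/

set_option autoImplicit false
set_option linter.unusedSectionVars false

namespace Pool.Agent.Run7.h453.CB

open NumberField IntermediateField IsDedekindDomain Filter Topology Set Asymptotics
open Pool.Agent.K4H74 Pool.Agent.K4H74.ST
open Pool.Agent.Run7.h453.CX Pool.Agent.Run7.h453.ST Pool.Agent.W187.UR
open Pool.Agent.W189.ML (om)
open scoped ArithmeticFunction.Moebius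

section grp

variable {G : Type} [Group G] [Fintype G]

/-- `(n / φ(n)) ∑_(d | n) (μ(d) / d) x(⟨σ^d⟩)` -/
noncomputable def av (x : Subgroup G → ℂ) (σ : G) : ℂ :=
  (orderOf σ : ℂ) / Nat.totient (orderOf σ) *
    ∑ d ∈ (orderOf σ).divisors, ((μ d : ℤ) : ℂ) / d * x (Subgroup.zpowers (σ ^ d))

/-- the mean of `f(σ) av(x)(σ)` -/
noncomputable def AV (f : G → ℂ) (x : Subgroup G → ℂ) : ℂ :=
  (Nat.card G : ℂ)⁻¹ * ∑ σ : G, f σ * av x σ

open Classical in
/-- **Artin induction for a function which is constant on the divisions** -/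
theorem artin_f {f : G → ℂ} (hf : ∀ σ g, Div σ g → f g = f σ) (g : G) :
    f g = AV f fun H => perm H g := by
  have hG : (Nat.card G : ℂ) ≠ 0 := by exact_mod_cast Nat.card_pos.ne'
  have h1 : ∀ σ : G, f σ * av (fun H => perm H g) σ =
      if Div σ g then f g * (Nrm σ : ℂ) / Nat.totient (orderOf σ) else 0 := by
    intro σ
    have hn : (orderOf σ : ℂ) ≠ 0 := by exact_mod_cast (orderOf_pos σ).ne'
    unfold av
    rw [artin σ g]
    split_ifs with h
    · rw [hf σ g h]
      field_simp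
    · simp
  unfold AV
  rw [Finset.sum_congr rfl fun σ _ => h1 σ, ← Finset.sum_filter]
  -- all the terms are equal
  have hsymm : ∀ σ : G, Div σ g → Div g σ := by
    rintro σ ⟨x, hx⟩
    refine ⟨x⁻¹, ?_⟩
    have h2 := conj_iff x⁻¹ _ _ hx
    rw [← h2]
    congr 1
    group
  have hN : ∀ σ : G, Div σ g → Nrm σ = Nrm g ∧ orderOf σ = orderOf g := by
    rintro σ ⟨x, hx⟩
    have ho : orderOf σ = orderOf g := by
      rw [← Nat.card_zpowers, ← hx, Nat.card_zpowers]
      have h3 : x⁻¹ * g * x = (MulAut.conj x⁻¹) g := by simp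
      rw [h3]
      exact MulEquiv.orderOf_eq _ g
    refine ⟨?_, ho⟩
    unfold Nrm
    refine Finset.card_bij' (fun y _ => x * y * x⁻¹) (fun y _ => x⁻¹ * y * x) ?_ ?_ ?_ ?_
    · intro y hy
      rw [Finset.mem_filter] at hy ⊢
      refine ⟨Finset.mem_univ _, ?_⟩
      have h4 : Subgroup.zpowers (y⁻¹ * (x⁻¹ * g * x) * y) = Subgroup.zpowers (x⁻¹ * g * x) := by
        rw [conj_iff y _ _ hx, hy.2, hx]
      have h5 := conj_iff x⁻¹ _ _ h4
      have e1 : (x⁻¹)⁻¹ * (y⁻¹ * (x⁻¹ * g * x) * y) * x⁻¹ = (x * y * x⁻¹)⁻¹ * g * (x * y * x⁻¹) := by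
        group
      have e2 : (x⁻¹)⁻¹ * (x⁻¹ * g * x) * x⁻¹ = g := by group
      rw [e1, e2] at h5
      exact h5
    · intro y hy
      rw [Finset.mem_filter] at hy ⊢
      refine ⟨Finset.mem_univ _, ?_⟩
      have h4 := conj_iff x _ _ hy.2
      have e1 : x⁻¹ * (y⁻¹ * g * y) * x = (x⁻¹ * y * x)⁻¹ * (x⁻¹ * g * x) * (x⁻¹ * y * x) := by
        group
      rw [e1, hx] at h4
      rw [← h4]
      exact (conj_iff _ _ _ hx).symm
    · intro y _
      group
    · intro y _
      group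
  have h2 : ∀ σ ∈ Finset.univ.filter (fun σ : G => Div σ g), f g * (Nrm σ : ℂ) /
      Nat.totient (orderOf σ) = f g * (Nrm g : ℂ) / Nat.totient (orderOf g) := by
    intro σ hσ
    obtain ⟨h3, h4⟩ := hN σ (Finset.mem_filter.1 hσ).2
    rw [h3, h4]
  have h3 : (Finset.univ.filter fun σ : G => Div σ g) = Finset.univ.filter fun σ : G => Div g σ := by
    ext σ
    rw [Finset.mem_filter, Finset.mem_filter]
    refine and_congr_right fun _ => ⟨hsymm σ, ?_⟩
    rintro ⟨x, hx⟩
    refine ⟨x⁻¹, ?_⟩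
    have h2 := conj_iff x⁻¹ _ _ hx
    rw [← h2]
    congr 1
    group
  rw [Finset.sum_congr rfl h2, Finset.sum_const, nsmul_eq_mul, h3]
  have h4 := congrArg (Nat.cast (R := ℂ)) (card_div g)
  push_cast at h4
  rw [← Nat.card_eq_fintype_card] at h4
  have hφ : (Nat.totient (orderOf g) : ℂ) ≠ 0 := by
    exact_mod_cast (Nat.totient_pos.2 (orderOf_pos g)).ne'
  field_simp
  linear_combination (-f g) * h4

theorem AV_lin (f : G → ℂ) (a b : ℂ) (x y : Subgroup G → ℂ) :
    AV f (fun H => a * x H + b * y H) = a * AV f x + b * AV f y := by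
  unfold AV av
  simp only [mul_add, Finset.sum_add_distrib, Finset.mul_sum]
  congr 1 <;>
  · refine Finset.sum_congr rfl fun σ _ => Finset.sum_congr rfl fun d _ => ?_
    ring

theorem AV_O (f : G → ℂ) {E : Subgroup G → ℝ → ℂ} {g : ℝ → ℝ}
    (h : ∀ H, E H =O[atTop] g) : (fun T => AV f fun H => E H T) =O[atTop] g := by
  unfold AV av
  refine IsBigO.const_mul_left (IsBigO.fun_sum fun σ _ => ?_) _
  refine IsBigO.const_mul_left (IsBigO.const_mul_left (IsBigO.fun_sum fun d _ => ?_) _) _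
  exact IsBigO.const_mul_left (h _) _

/-- the value for the constant `-1` -/
theorem AV_neg_one (f : G → ℂ) : AV f (fun _ => -1) = -((Nat.card G : ℂ)⁻¹ * ∑ σ : G, f σ) := by
  have h1 : ∀ σ : G, av (fun _ => (-1 : ℂ)) σ = -1 := by
    intro σ
    have hn0 : 0 < orderOf σ := orderOf_pos σ
    have hn : (orderOf σ : ℂ) ≠ 0 := by exact_mod_cast hn0.ne'
    have hφ : (Nat.totient (orderOf σ) : ℂ) ≠ 0 := by
      exact_mod_cast (Nat.totient_pos.2 hn0).ne'
    unfold av
    have h2 : ∑ d ∈ (orderOf σ).divisors, ((μ d : ℤ) : ℂ) / d * (-1) =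
        -((Nat.totient (orderOf σ) : ℂ) / orderOf σ) := by
      have h3 : ((Nat.totient (orderOf σ) : ℕ) : ℂ) =
          ∑ d ∈ (orderOf σ).divisors, ((μ d : ℤ) : ℂ) * ((orderOf σ / d : ℕ) : ℂ) := by
        have h4 := (ArithmeticFunction.sum_eq_iff_sum_mul_moebius_eq (R := ℤ)
          (f := fun n => (Nat.totient n : ℤ)) (g := fun n => (n : ℤ))).1 (fun n hn => by
            have := Nat.sum_totient n
            exact_mod_cast this) (orderOf σ) hn0
        have h5 := congrArg (Int.cast (R := ℂ)) h4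
        push_cast at h5
        rw [← h5]
        exact Nat.sum_divisorsAntidiagonal (f := fun a b => ((μ a : ℤ) : ℂ) * ((b : ℕ) : ℂ))
      rw [h3, Finset.sum_div, ← Finset.sum_neg_distrib]
      refine Finset.sum_congr rfl fun d hd => ?_
      have hd0 : (d : ℂ) ≠ 0 := by exact_mod_cast (Nat.pos_of_mem_divisors hd).ne'
      rw [Nat.cast_div (Nat.dvd_of_mem_divisors hd) hd0]
      field_simp
    rw [h2]
    field_simp
  unfold AV
  simp only [h1, mul_neg, mul_one, Finset.sum_neg_distrib]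

end grp

variable {K L : Type} [Field K] [NumberField K] [Field L] [NumberField L] [Algebra K L]

theorem SA_AV {f : (L ≃ₐ[K] L) → ℂ} (hf : ∀ σ g, Div σ g → f g = f σ) (s₀ : ℂ) (γ : ℝ) {T : ℝ}
    (hT : 0 < T) : SA f s₀ γ T = AV f fun H => SA (K := K) (perm H) s₀ γ T := by
  have h1 : f = fun g => ∑ σ : L ≃ₐ[K] L, ((Nat.card (L ≃ₐ[K] L) : ℂ)⁻¹ * f σ *
      ((orderOf σ : ℂ) / Nat.totient (orderOf σ))) *
      ∑ d ∈ (orderOf σ).divisors, ((μ d : ℤ) : ℂ) / d * perm (Subgroup.zpowers (σ ^ d)) g := by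
    funext g
    have h2 := artin_f hf g
    unfold AV av at h2
    rw [Finset.mul_sum] at h2
    rw [h2]
    refine Finset.sum_congr rfl fun σ _ => ?_
    ring
  have h3 := congrArg (fun u : (L ≃ₐ[K] L) → ℂ => SA u s₀ γ T) h1
  beta_reduce at h3
  rw [h3, SA_lin Finset.univ _ (fun σ g => ∑ d ∈ (orderOf σ).divisors, ((μ d : ℤ) : ℂ) / d *
    perm (Subgroup.zpowers (σ ^ d)) g) s₀ γ hT]
  unfold AV av
  rw [Finset.mul_sum]
  refine Finset.sum_congr rfl fun σ _ => ?_
  rw [SA_lin (orderOf σ).divisors (fun d => ((μ d : ℤ) : ℂ) / d)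
    (fun d => perm (Subgroup.zpowers (σ ^ d))) s₀ γ hT]
  ring

variable [IsGalois K L]

/-- the law for the zeta function of an intermediate field at an arbitrary point -/
theorem zeta_at (F : IntermediateField K L) {Z : ℂ → ℂ} (hZ : ∀ s, MeromorphicAt Z s)
    (hZ1 : ∀ s : ℂ, 1 < s.re → Z s = dedekindZeta F s) (s₀ : ℂ) {γ : ℝ} (hγ : Real.pi / 2 < γ) :
    ∃ (m : ℤ) (r : ℂ), meromorphicOrderAt Z s₀ = m ∧
      Complex.exp r = meromorphicTrailingCoeffAt Z s₀ ∧
      (fun T : ℝ => SA (K := K) (perm F.fixingSubgroup) s₀ γ T -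
        (-(m : ℂ) * (Real.log T - Lam γ) + r)) =O[atTop] fun T : ℝ => 1 / T := by
  obtain ⟨m, r, C, T₀, hm, hr, h⟩ := law_at (K := K) (perm F.fixingSubgroup) (Φ := Z) s₀
    (fun x _ => hZ _) (fun s hs l hl => by rw [hZ1 s hs, ← log_zetaF F hs hl]) hγ
  refine ⟨m, r, hm, hr, IsBigO.of_bound C ?_⟩
  filter_upwards [eventually_ge_atTop T₀, eventually_gt_atTop 0] with T hT hT0
  rw [Real.norm_eq_abs, abs_of_pos (by positivity : 0 < 1 / T), mul_one_div]
  refine le_trans (le_of_eq ?_) (h T hT)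
  rw [← norm_neg]
  congr 1
  ring

/-- the orders of the zeta functions of the fixed fields -/
noncomputable def ordF (Z : IntermediateField K L → ℂ → ℂ) (s₀ : ℂ) (H : Subgroup (L ≃ₐ[K] L)) : ℂ :=
  ((meromorphicOrderAt (Z (fixedField H)) s₀).untop₀ : ℂ)

/-- **The law for a function which is constant on the divisions, at an arbitrary point.** -/
theorem rat_law {f : (L ≃ₐ[K] L) → ℂ} (hf : ∀ σ g, Div σ g → f g = f σ)
    {Z : IntermediateField K L → ℂ → ℂ} (hZ : ∀ F, (∀ s, MeromorphicAt (Z F) s) ∧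
      ∀ s : ℂ, 1 < s.re → Z F s = dedekindZeta F s) (s₀ : ℂ) {γ : ℝ} (hγ : Real.pi / 2 < γ) :
    ∃ r : Subgroup (L ≃ₐ[K] L) → ℂ,
      (∀ H, Complex.exp (r H) = meromorphicTrailingCoeffAt (Z (fixedField H)) s₀) ∧
      (fun T : ℝ => SA f s₀ γ T - (-AV f (ordF Z s₀) * (Real.log T - Lam γ) + AV f r)) =O[atTop]
        fun T : ℝ => 1 / T := by
  have h := fun H : Subgroup (L ≃ₐ[K] L) => zeta_at (fixedField H) (hZ _).1 (hZ _).2 s₀ hγ
  choose m r hm hr hO using h
  refine ⟨r, hr, ?_⟩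
  have hord : ∀ H, ordF Z s₀ H = (m H : ℂ) := by
    intro H
    unfold ordF
    rw [hm H]
    simp
  have h1 := AV_O f hO
  refine h1.congr' ?_ (EventuallyEq.refl _ _)
  filter_upwards [eventually_gt_atTop 0] with T hT
  rw [SA_AV hf s₀ γ hT]
  have h2 : (fun H => ordF Z s₀ H) = fun H => (m H : ℂ) := funext hord
  have h3 : ∀ H : Subgroup (L ≃ₐ[K] L), SA (K := K) (perm (fixedField H).fixingSubgroup) s₀ γ T =
      SA (K := K) (perm H) s₀ γ T := fun H => by rw [fixingSubgroup_fixedField]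
  simp only [h3]
  have h4 := AV_lin f 1 (-1) (fun H => SA (K := K) (perm H) s₀ γ T)
    (fun H => -(m H : ℂ) * (Real.log T - Lam γ) + r H)
  have h5 := AV_lin f (-(Real.log T - Lam γ)) 1 (fun H => (m H : ℂ)) r
  have h6 : (fun H => -(m H : ℂ) * (Real.log T - Lam γ) + r H) =
      fun H => -(Real.log T - Lam γ) * (m H : ℂ) + 1 * r H := by
    funext H
    ring
  rw [← h6] at h5
  have h7 : (fun H => SA (K := K) (perm H) s₀ γ T - (-(m H : ℂ) * (Real.log T - Lam γ) + r H)) =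
      fun H => 1 * SA (K := K) (perm H) s₀ γ T +
        -1 * (-(m H : ℂ) * (Real.log T - Lam γ) + r H) := by
    funext H
    ring
  rw [h7, h4, h5, show ordF Z s₀ = fun H => (m H : ℂ) from h2]
  ring

end Pool.Agent.Run7.h453.CB
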