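import Pool.Agent.Run7.h453.CB.Prime
import Pool.Agent.Run7.h375.CM
import Pool.Agent.H307R2.Sg6
import Pool.Agent.TH958.An.Zeta

/-! The point `1` and the point `1 / 2`. -/

set_option autoImplicit false
set_option linter.unusedSectionVars false

namespace Pool.Agent.Run7.h453.CB

open NumberField IntermediateField IsDedekindDomain Filter Topology Set Asymptotics
open Pool.Agent.K4H74 Pool.Agent.K4H74.ST
open Pool.Agent.Run7.h453.CX Pool.Agent.Run7.h453.ST Pool.Agent.W187.UR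
open Pool.Agent.W189.ML (om)

/-- the simple pole at `1` -/
theorem order_one (F : Type) [Field F] [NumberField F] {Z : ℂ → ℂ} (hZ : ∀ s, MeromorphicAt Z s)
    (hZ1 : ∀ s : ℂ, 1 < s.re → Z s = dedekindZeta F s) :
    meromorphicOrderAt Z 1 = ((-1 : ℤ) : WithTop ℤ) := by
  have hlin : meromorphicOrderAt (fun s : ℂ => s - 1) 1 = ((1 : ℤ) : WithTop ℤ) := by
    rw [meromorphicOrderAt_eq_int_iff (by fun_prop)]
    refine ⟨fun _ => 1, analyticAt_const, one_ne_zero, ?_⟩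
    filter_upwards with s
    simp
  have hm : MeromorphicAt (fun s : ℂ => s - 1) 1 := by fun_prop
  set g : ℂ → ℂ := (fun s : ℂ => s - 1) * Z with hg
  have hgm : MeromorphicAt g 1 := hm.mul (hZ 1)
  have hord : meromorphicOrderAt g 1 = ((1 : ℤ) : WithTop ℤ) + meromorphicOrderAt Z 1 := by
    rw [hg, meromorphicOrderAt_mul hm (hZ 1), hlin]
  have hreal : Tendsto (fun x : ℝ => g (x : ℂ)) (𝓝[>] 1) (𝓝 (dedekindZeta_residue F : ℂ)) := by
    refine (tendsto_sub_one_mul_dedekindZeta_nhdsGT F).congr' ?_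
    filter_upwards [self_mem_nhdsWithin] with x hx
    have hx' : (1 : ℝ) < x := hx
    show ((x : ℂ) - 1) * dedekindZeta F x = ((x : ℂ) - 1) * Z x
    rw [hZ1 x (by simpa using hx')]
  have hres : (dedekindZeta_residue F : ℂ) ≠ 0 := by
    exact_mod_cast dedekindZeta_residue_ne_zero F
  have hone := Run7.h375.Zeta.tendsto_one_ofReal
  have h0 : meromorphicOrderAt g 1 = 0 := by
    rcases lt_trichotomy (meromorphicOrderAt g 1) 0 with h | h | h
    · have h1 := (tendsto_cobounded_of_meromorphicOrderAt_neg h).comp hone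
      have h2 := tendsto_norm_cobounded_atTop.comp h1
      have h3 := hreal.norm
      exact absurd h3 (not_tendsto_nhds_of_tendsto_atTop h2 _)
    · exact h
    · have h1 := (tendsto_zero_of_meromorphicOrderAt_pos h).comp hone
      exact absurd (tendsto_nhds_unique hreal h1) hres
  rw [h0] at hord
  cases ho : meromorphicOrderAt Z 1 with
  | top => rw [ho] at hord; simp at hord
  | coe n =>
    rw [ho] at hord
    have : (0 : ℤ) = 1 + n := by exact_mod_cast hord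
    have hn : n = -1 := by omega
    rw [hn]

section rat

open Ideal

theorem rank_rat : Module.finrank ℤ (𝓞 ℚ) = 1 := by
  rw [RingOfIntegers.rank]
  exact Module.finrank_self ℚ

theorem card_norm (n : ℕ) (hn : n ≠ 0) : Nat.card {I : Ideal (𝓞 ℚ) // absNorm I = n} = 1 := by
  have h0 : absNorm (span {((n : ℕ) : 𝓞 ℚ)}) = n := by
    rw [Ideal.absNorm_span_natCast, rank_rat, pow_one]
  rw [Nat.card_eq_one_iff_unique]
  refine ⟨⟨fun I J => ?_⟩, ⟨⟨_, h0⟩⟩⟩
  have key : ∀ I : Ideal (𝓞 ℚ), absNorm I = n → I = span {((n : ℕ) : 𝓞 ℚ)} := by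
    intro I hI
    have h1 : ((n : ℕ) : 𝓞 ℚ) ∈ I := by
      rw [← hI]
      exact Ideal.absNorm_mem I
    obtain ⟨J, hJ⟩ := Ideal.dvd_span_singleton.2 h1
    have h2 : absNorm I * absNorm J = n := by rw [← map_mul, ← hJ, h0]
    rw [hI] at h2
    have h3 : absNorm J = 1 := by
      have : n * absNorm J = n * 1 := by rw [h2, mul_one]
      exact Nat.eq_of_mul_eq_mul_left (Nat.pos_of_ne_zero hn) this
    rw [Ideal.absNorm_eq_one_iff] at h3
    rw [hJ, h3, Ideal.mul_top]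
  apply Subtype.ext
  rw [key I.1 I.2, key J.1 J.2]

theorem zeta_rat {s : ℂ} (hs : 1 < s.re) : dedekindZeta ℚ s = riemannZeta s := by
  rw [← LSeries_one_eq_riemannZeta hs]
  unfold dedekindZeta
  refine LSeries_congr (fun {n} hn => ?_) s
  rw [card_norm n hn]
  simp

/-- `ζ` does not vanish at the points of `(0, 1)` -/
theorem order_real {Z : ℂ → ℂ} (hZ : ∀ s, MeromorphicAt Z s)
    (hZ1 : ∀ s : ℂ, 1 < s.re → Z s = dedekindZeta ℚ s) {x : ℝ} (h0 : 0 < x) (h1 : x < 1) :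
    meromorphicOrderAt Z (x : ℂ) = 0 := by
  have h2 : Z =ᶠ[𝓝[≠] (x : ℂ)] riemannZeta := unique_cont hZ Pool.Agent.TH958.An.zeta_mero
    (fun s hs => by rw [hZ1 s hs, zeta_rat hs]) _
  rw [meromorphicOrderAt_congr h2]
  have hne : (x : ℂ) ≠ 1 := by
    intro h
    have : x = 1 := by exact_mod_cast h
    linarith
  have han : AnalyticAt ℂ riemannZeta (x : ℂ) := by
    have hd : DifferentiableOn ℂ riemannZeta {s | s ≠ 1} := fun s hs =>
      (differentiableAt_riemannZeta hs).differentiableWithinAt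
    exact hd.analyticAt (isOpen_ne.mem_nhds hne)
  rw [← tendsto_ne_zero_iff_meromorphicOrderAt_eq_zero han.meromorphicAt]
  refine ⟨riemannZeta x, ?_, han.continuousAt.tendsto.mono_left nhdsWithin_le_nhds⟩
  intro h
  have := (Pool.Agent.H307R2.zeta_neg h0 h1).1
  rw [h] at this
  simp at this

end rat

variable {K L : Type} [Field K] [NumberField K] [Field L] [NumberField L] [Algebra K L]
  [IsGalois K L]

theorem ordF_one {Z : IntermediateField K L → ℂ → ℂ} (hZ : ∀ F, (∀ s, MeromorphicAt (Z F) s) ∧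
      ∀ s : ℂ, 1 < s.re → Z F s = dedekindZeta F s) : ordF Z 1 = fun _ => -1 := by
  funext H
  unfold ordF
  rw [order_one _ (hZ _).1 (hZ _).2]
  simp

/-- the mean of `f(g²)` -/
noncomputable def sqMean (f : (L ≃ₐ[K] L) → ℂ) : ℂ :=
  (Nat.card (L ≃ₐ[K] L) : ℂ)⁻¹ * ∑ g : L ≃ₐ[K] L, f (g ^ 2)

/-- **The law for the primes at `1 / 2`.** -/
theorem half_law {f : (L ≃ₐ[K] L) → ℂ} (hf : ∀ σ g, Div σ g → f g = f σ)
    {Z : IntermediateField K L → ℂ → ℂ} (hZ : ∀ F, (∀ s, MeromorphicAt (Z F) s) ∧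
      ∀ s : ℂ, 1 < s.re → Z F s = dedekindZeta F s) {γ : ℝ} (hγ : Real.pi / 2 < γ) :
    (fun T : ℝ => PA f (1 / 2) γ T + (AV f (ordF Z (1 / 2)) + 1 / 2 * sqMean f) *
      Real.log T) =O[atTop] fun _ : ℝ => (1 : ℝ) := by
  have h := prime_law hf hZ (s₀ := 1 / 2) (by norm_num) hγ
  have h1 : (2 : ℂ) * (1 / 2) = 1 := by norm_num
  rw [h1, ordF_one hZ, AV_neg_one] at h
  refine h.congr' ?_ (EventuallyEq.refl _ _)
  filter_upwards with T
  unfold sqMean
  ring

/-- the law for the primes for an arbitrary class function -/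
theorem class_law {f : (L ≃ₐ[K] L) → ℂ} (hf : ∀ g x : L ≃ₐ[K] L, f (x * g * x⁻¹) = f g)
    {Φ Φ₂ : ℂ → ℂ} (hΦ : (∀ z, MeromorphicAt Φ z) ∧ ∀ s : ℂ, 1 < s.re → ∀ l : ℂ,
      HasSum (SC.logTerm K L f s) l → Φ s = Complex.exp l)
    (hΦ₂ : (∀ z, MeromorphicAt Φ₂ z) ∧ ∀ s : ℂ, 1 < s.re → ∀ l : ℂ,
      HasSum (SC.logTerm K L (fun g => f (g ^ 2)) s) l → Φ₂ s = Complex.exp l)
    {s₀ : ℂ} (hs₀ : 1 < 3 * s₀.re) {γ : ℝ} (hγ : Real.pi / 2 < γ) :
    (fun T : ℝ => PA f s₀ γ T + (((meromorphicOrderAt Φ s₀).untop₀ : ℂ) -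
      1 / 2 * ((meromorphicOrderAt Φ₂ (2 * s₀)).untop₀ : ℂ)) * Real.log T) =O[atTop]
        fun _ : ℝ => (1 : ℝ) := by
  obtain ⟨m, r, C, T₀, hm, -, h1⟩ := law_at f s₀ (fun x _ => hΦ.1 _) hΦ.2 hγ
  obtain ⟨m', r', C', T₀', hm', -, h2⟩ := law_at (fun g => f (g ^ 2)) (2 * s₀)
    (fun x _ => hΦ₂.1 _) hΦ₂.2 hγ
  obtain ⟨B, hB⟩ := prime_sum hf hs₀ γ
  rw [hm, hm']
  have key : ∀ (S : ℝ → ℂ) (C T₀ : ℝ) (a : ℝ → ℂ), (∀ T ≥ T₀, ‖-S T - a T‖ ≤ C / T) →
      (fun T : ℝ => S T + a T) =O[atTop] fun _ : ℝ => (1 : ℝ) := by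
    intro S C T₀ a h
    refine IsBigO.of_bound |C| ?_
    filter_upwards [eventually_ge_atTop T₀, eventually_ge_atTop 1] with T hT hT1
    rw [norm_one, mul_one]
    have h3 := h T hT
    rw [← norm_neg] at h3
    have h4 : -(-S T - a T) = S T + a T := by ring
    rw [h4] at h3
    refine h3.trans ((div_le_div_of_nonneg_right (le_abs_self C) (by linarith)).trans ?_)
    exact div_le_self (abs_nonneg _) hT1
  have hhalf : Tendsto (fun T : ℝ => T / 2) atTop atTop := tendsto_id.atTop_div_const (by norm_num)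
  have h3 := key _ C T₀ _ h1
  have h4 := (key _ C' T₀' _ h2).comp_tendsto hhalf
  have h5 : (fun T : ℝ => PA f s₀ γ T - (SA f s₀ γ T -
      1 / 2 * SA (fun g => f (g ^ 2)) (2 * s₀) γ (T / 2))) =O[atTop] fun _ : ℝ => (1 : ℝ) := by
    refine IsBigO.of_bound B ?_
    filter_upwards [eventually_gt_atTop 0] with T hT
    rw [norm_one, mul_one]
    exact hB T hT
  have hc : ∀ a : ℂ, (fun _ : ℝ => a) =O[atTop] fun _ : ℝ => (1 : ℝ) := fun a =>
    isBigO_const_const a one_ne_zero _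
  have h6 := ((h5.add h3).sub (h4.const_mul_left (1 / 2))).add
    (hc (m * Lam γ + r - 1 / 2 * (m' * (Real.log 2 + Lam γ) + r')))
  refine h6.congr' ?_ (EventuallyEq.refl _ _)
  filter_upwards [eventually_gt_atTop 0] with T hT
  have hlog : Real.log (T / 2) = Real.log T - Real.log 2 := Real.log_div hT.ne' (by norm_num)
  simp only [Function.comp_def]
  rw [hlog]
  simp only [WithTop.untop₀_coe]
  push_cast
  ring

/-- the coefficient of `log T` is unique -/
theorem coeff_unique {S : ℝ → ℂ} {a b : ℂ}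
    (h1 : (fun T : ℝ => S T + a * Real.log T) =O[atTop] fun _ : ℝ => (1 : ℝ))
    (h2 : (fun T : ℝ => S T + b * Real.log T) =O[atTop] fun _ : ℝ => (1 : ℝ)) : a = b := by
  by_contra hab
  have h3 := h1.sub h2
  have h4 : (fun T : ℝ => (a - b) * (Real.log T : ℂ)) =O[atTop] fun _ : ℝ => (1 : ℝ) := by
    refine h3.congr (fun T => ?_) (fun _ => rfl)
    ring
  have h5 : (fun T : ℝ => (Real.log T : ℂ)) =O[atTop] fun _ : ℝ => (1 : ℝ) := by
    have := h4.const_mul_left (a - b)⁻¹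
    refine this.congr (fun T => ?_) (fun _ => rfl)
    rw [inv_mul_cancel_left₀ (sub_ne_zero.2 hab)]
  obtain ⟨B, hB⟩ := h5.bound
  have h6 := Real.tendsto_log_atTop.eventually_gt_atTop B
  obtain ⟨T, hT1, hT2⟩ := (hB.and h6).exists
  rw [Complex.norm_real, norm_one, mul_one, Real.norm_eq_abs] at hT1
  linarith [le_abs_self (Real.log T)]

/-- the order of a meromorphic continuation -/
theorem order_eq {f : (L ≃ₐ[K] L) → ℂ} (hf : ∀ σ g, Div σ g → f g = f σ)
    {Z : IntermediateField K L → ℂ → ℂ} (hZ : ∀ F, (∀ s, MeromorphicAt (Z F) s) ∧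
      ∀ s : ℂ, 1 < s.re → Z F s = dedekindZeta F s) {Φ : ℂ → ℂ}
    (hΦ : (∀ z, MeromorphicAt Φ z) ∧ ∀ s : ℂ, 1 < s.re → ∀ l : ℂ,
      HasSum (SC.logTerm K L f s) l → Φ s = Complex.exp l) (s₀ : ℂ) :
    meromorphicOrderAt Φ s₀ ≠ ⊤ ∧
      ((meromorphicOrderAt Φ s₀).untop₀ : ℂ) = AV f (ordF Z s₀) := by
  have hγ : Real.pi / 2 < Real.pi := by linarith [Real.pi_pos]
  obtain ⟨m, r, C, T₀, hm, -, h1⟩ := law_at f s₀ (fun x _ => hΦ.1 _) hΦ.2 hγ
  obtain ⟨r', -, h2⟩ := rat_law hf hZ s₀ hγ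
  rw [hm]
  refine ⟨WithTop.coe_ne_top, ?_⟩
  rw [WithTop.untop₀_coe]
  have ho : (fun T : ℝ => 1 / T) =O[atTop] fun _ : ℝ => (1 : ℝ) := by
    refine IsBigO.of_bound 1 ?_
    filter_upwards [eventually_ge_atTop 1] with T hT
    rw [Real.norm_eq_abs, abs_of_pos (by positivity), norm_one, mul_one]
    exact (div_le_one (by linarith)).2 hT
  have hc : ∀ a : ℂ, (fun _ : ℝ => a) =O[atTop] fun _ : ℝ => (1 : ℝ) := fun a =>
    isBigO_const_const a one_ne_zero _
  have h3 : (fun T : ℝ => SA f s₀ Real.pi T + (m : ℂ) * Real.log T) =O[atTop]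
      fun _ : ℝ => (1 : ℝ) := by
    have h4 : (fun T : ℝ => SA f s₀ Real.pi T + (m * (Real.log T - Lam Real.pi) - r)) =O[atTop]
        fun _ : ℝ => (1 : ℝ) := by
      refine IsBigO.of_bound |C| ?_
      filter_upwards [eventually_ge_atTop T₀, eventually_ge_atTop 1] with T hT hT1
      rw [norm_one, mul_one]
      have h5 := h1 T hT
      rw [← norm_neg] at h5
      have h6 : -(-SA f s₀ Real.pi T - (m * (Real.log T - Lam Real.pi) - r)) =
        SA f s₀ Real.pi T + (m * (Real.log T - Lam Real.pi) - r) := by ring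
      rw [h6] at h5
      refine h5.trans ((div_le_div_of_nonneg_right (le_abs_self C) (by linarith)).trans ?_)
      exact div_le_self (abs_nonneg _) hT1
    refine (h4.add (hc (m * Lam Real.pi + r))).congr (fun T => ?_) (fun _ => rfl)
    ring
  have h4 : (fun T : ℝ => SA f s₀ Real.pi T + AV f (ordF Z s₀) * Real.log T) =O[atTop]
      fun _ : ℝ => (1 : ℝ) := by
    refine ((h2.trans ho).add (hc (AV f (ordF Z s₀) * Lam Real.pi + AV f r'))).congr
      (fun T => ?_) (fun _ => rfl)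
    ring
  exact coeff_unique h3 h4

end Pool.Agent.Run7.h453.CB
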