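import Pool.Agent.K4H74.SC.Sum

/-! Only finitely many primes are ramified; the mean over the Frobenius elements at an unramified
prime. -/

set_option autoImplicit false
set_option linter.unusedSectionVars false

namespace Pool.Agent.Run7.h453.CB

open NumberField IsDedekindDomain Ideal
open Pool.Agent.K4H74 Pool.Agent.K4H74.ST
open scoped Pointwise

variable {K L : Type} [Field K] [NumberField K] [Field L] [NumberField L] [Algebra K L]
  [IsGalois K L]

theorem exists_moved {g : L ≃ₐ[K] L} (hg : g ≠ 1) : ∃ y : 𝓞 L, g • y - y ≠ 0 := by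
  by_contra h
  push Not at h
  apply hg
  ext x
  obtain ⟨a, b, hb, rfl⟩ := IsFractionRing.div_surjective (A := 𝓞 L) x
  have h1 : ∀ y : 𝓞 L, g (algebraMap (𝓞 L) L y) = algebraMap (𝓞 L) L y := by
    intro y
    have h2 := sub_eq_zero.1 (h y)
    exact congrArg (algebraMap (𝓞 L) L) h2
  rw [map_div₀, h1, h1]
  rfl

/-- only finitely many primes are ramified -/
theorem ram_finite : {p : HeightOneSpectrum (𝓞 K) | p.asIdeal.ramificationIdxIn (𝓞 L) ≠ 1}.Finite := by
  classical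
  have hft : Fintype (L ≃ₐ[K] L) := Fintype.ofFinite _
  have hy : ∀ g : L ≃ₐ[K] L, ∃ y : 𝓞 L, g ≠ 1 → g • y - y ≠ 0 := by
    intro g
    by_cases hg : g = 1
    · exact ⟨0, fun h => absurd hg h⟩
    · obtain ⟨y, hy⟩ := exists_moved hg
      exact ⟨y, fun _ => hy⟩
  choose y hy using hy
  set δ : 𝓞 L := ∏ g ∈ Finset.univ.filter (fun g : L ≃ₐ[K] L => g ≠ 1), (g • y g - y g) with hδ
  have hδ0 : δ ≠ 0 := Finset.prod_ne_zero_iff.2 fun g hg => hy g (Finset.mem_filter.1 hg).2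
  have hfin := Ideal.finite_factors (R := 𝓞 L) (I := Ideal.span {δ}) (by
    rw [ne_eq, Ideal.zero_eq_bot, Ideal.span_singleton_eq_bot]
    exact hδ0)
  refine (hfin.image (SC.belowP K)).subset ?_
  intro p hp
  have hpp := p.isPrime
  have hne : (p.asIdeal.primesOver (𝓞 L)).Nonempty := by
    rw [Set.nonempty_iff_ne_empty]
    intro h0
    have := SC.pr_ne (K := K) (L := L) (p := p.asIdeal)
    rw [h0, Set.ncard_empty] at this
    exact this rfl
  obtain ⟨P, hP1, hP2⟩ := hne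
  have hPne : P ≠ ⊥ := Ideal.ne_bot_of_liesOver_of_ne_bot p.ne_bot P
  have hcard := SC.card_inertia (K := K) (p := p.asIdeal) P
  have hp' : p.asIdeal.ramificationIdxIn (𝓞 L) ≠ 1 := hp
  rw [← hcard] at hp'
  have hnt : Nontrivial (P.inertia (L ≃ₐ[K] L)) := by
    rw [← Finite.one_lt_card_iff_nontrivial]
    have : 0 < Nat.card (P.inertia (L ≃ₐ[K] L)) := Nat.card_pos
    omega
  obtain ⟨i, hi⟩ := exists_ne (1 : P.inertia (L ≃ₐ[K] L))
  have hi1 : (i : L ≃ₐ[K] L) ≠ 1 := fun h => hi (Subtype.ext h)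
  have hmem : δ ∈ P := by
    have h2 : (i : L ≃ₐ[K] L) • y i - y i ∈ P := by
      have h3 := i.2
      rw [AddSubgroup.mem_inertia] at h3
      exact h3 (y i)
    rw [hδ]
    exact P.mem_of_dvd (Finset.dvd_prod_of_mem _ (Finset.mem_filter.2 ⟨Finset.mem_univ _, hi1⟩)) h2
  refine ⟨⟨P, hP1, hPne⟩, ?_, ?_⟩
  · show P ∣ Ideal.span {δ}
    rw [Ideal.dvd_span_singleton]
    exact hmem
  · apply HeightOneSpectrum.ext
    exact (Ideal.over_def P p.asIdeal).symm

/-- the mean at an unramified prime -/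
theorem frobMean_unr {p : HeightOneSpectrum (𝓞 K)} (hp : p.asIdeal.ramificationIdxIn (𝓞 L) = 1) :
    ∃ σ : L ≃ₐ[K] L, ∀ (f : (L ≃ₐ[K] L) → ℂ), (∀ g x : L ≃ₐ[K] L, f (x * g * x⁻¹) = f g) →
      ∀ n, SC.frobMean K L f p.asIdeal n = f (σ ^ n) := by
  classical
  have hft : Fintype (L ≃ₐ[K] L) := Fintype.ofFinite _
  have hpp := p.isPrime
  have hne : (p.asIdeal.primesOver (𝓞 L)).Nonempty := by
    rw [Set.nonempty_iff_ne_empty]
    intro h0
    have := SC.pr_ne (K := K) (L := L) (p := p.asIdeal)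
    rw [h0, Set.ncard_empty] at this
    exact this rfl
  obtain ⟨P, hP1, hP2⟩ := hne
  obtain ⟨σ, hσ⟩ := SC.exists_frob (K := K) p.ne_bot P
  refine ⟨σ, fun f hf n => ?_⟩
  rw [SC.frobMean_eq hf p.ne_bot n P, hp, Nat.cast_one, div_one, SC.frSum_eq (hσ n)]
  have hcard := SC.card_inertia (K := K) (p := p.asIdeal) P
  rw [hp] at hcard
  have hsub : Subsingleton (P.inertia (L ≃ₐ[K] L)) := (Nat.card_eq_one_iff_unique.1 hcard).1
  rw [Fintype.sum_subsingleton _ (1 : P.inertia (L ≃ₐ[K] L))]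
  simp

end Pool.Agent.Run7.h453.CB
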