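import Pool.Agent.Run7.h453.CB.Div
import Pool.Agent.Run7.h453.CB.Ram

/-! The sums over the primes (without their powers). -/

set_option autoImplicit false
set_option linter.unusedSectionVars false

namespace Pool.Agent.Run7.h453.CB

open NumberField IntermediateField IsDedekindDomain Filter Topology Set Asymptotics
open Pool.Agent.K4H74 Pool.Agent.K4H74.ST
open Pool.Agent.Run7.h453.CX Pool.Agent.Run7.h453.ST Pool.Agent.W187.UR
open Pool.Agent.W189.ML (om)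

variable {K L : Type} [Field K] [NumberField K] [Field L] [NumberField L] [Algebra K L]

/-- the sum over the primes -/
noncomputable def PA (f : (L ≃ₐ[K] L) → ℂ) (s₀ : ℂ) (γ T : ℝ) : ℂ :=
  ∑' p : HeightOneSpectrum (𝓞 K), rterm (lamI K) (SC.logTerm K L f s₀) γ T (p, 1)

theorem tail_summable (f : (L ≃ₐ[K] L) → ℂ) (s₀ : ℂ) (k : ℕ) (hk : 1 < k * s₀.re) :
    Summable fun x : HeightOneSpectrum (𝓞 K) × ℕ+ =>
      if k ≤ (x.2 : ℕ) then ‖SC.logTerm K L f s₀ x‖ else 0 := by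
  obtain ⟨C, hC, hb⟩ := SC.frobMean_bound f
  set σ : ℝ := s₀.re with hσdef
  have hσ : 0 < σ := by
    by_contra h
    push Not at h
    have : (k : ℝ) * σ ≤ 0 := mul_nonpos_of_nonneg_of_nonpos (Nat.cast_nonneg _) h
    linarith
  have h1 : Summable (fun q : HeightOneSpectrum (𝓞 K) =>
      ((Ideal.absNorm q.asIdeal : ℕ) : ℝ) ^ (-(k * σ))) := SC.summable_absNorm hk
  have hx : (2 : ℝ) ^ (-σ) < 1 := Real.rpow_lt_one_of_one_lt_of_neg (by norm_num) (by linarith)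
  have hgeo : Summable (fun n : ℕ+ => ((2 : ℝ) ^ (-σ)) ^ (n : ℕ)) :=
    (summable_geometric_of_lt_one (by positivity) hx).comp_injective PNat.coe_injective
  have h4 := h1.mul_of_nonneg hgeo (fun q => Real.rpow_nonneg (Nat.cast_nonneg _) _)
    (fun n => by positivity)
  refine Summable.of_nonneg_of_le (fun x => ?_) (fun x => ?_) (h4.mul_left (C * (2 : ℝ) ^ (k * σ)))
  · split_ifs
    · exact norm_nonneg _
    · exact le_rfl
  obtain ⟨q, n⟩ := x
  have hN : (2 : ℝ) ≤ (Ideal.absNorm q.asIdeal : ℕ) := by exact_mod_cast SC.two_le_absNorm q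
  have hN0 : (0 : ℝ) < (Ideal.absNorm q.asIdeal : ℕ) := by linarith
  show (if k ≤ (n : ℕ) then ‖SC.logTerm K L f s₀ (q, n)‖ else 0) ≤ C * (2 : ℝ) ^ (k * σ) *
    (((Ideal.absNorm q.asIdeal : ℕ) : ℝ) ^ (-(k * σ)) * ((2 : ℝ) ^ (-σ)) ^ (n : ℕ))
  split_ifs with hkn
  · rw [logTerm_eq, norm_mul, Complex.norm_exp]
    have hn1 : (1 : ℝ) ≤ (n : ℕ) := by exact_mod_cast n.pos
    have h5 : ‖cI (K := K) f (q, n)‖ ≤ C := by
      unfold cI
      rw [norm_div, Complex.norm_natCast]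
      exact (div_le_self (norm_nonneg _) hn1).trans (hb q n)
    have h6 : Real.exp ((-(s₀ * (lamI K (q, n) : ℂ))).re) =
        ((Ideal.absNorm q.asIdeal : ℕ) : ℝ) ^ (-((n : ℕ) * σ)) := by
      rw [Real.rpow_def_of_pos hN0, Complex.neg_re, Complex.re_mul_ofReal]
      unfold lamI
      congr 1
      ring
    rw [h6]
    have h7 : ((Ideal.absNorm q.asIdeal : ℕ) : ℝ) ^ (-((n : ℕ) * σ)) =
        ((Ideal.absNorm q.asIdeal : ℕ) : ℝ) ^ (-(k * σ)) *
          ((Ideal.absNorm q.asIdeal : ℕ) : ℝ) ^ (-(((n : ℕ) - k) * σ)) := by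
      rw [← Real.rpow_add hN0]
      congr 1
      ring
    have h8 : ((Ideal.absNorm q.asIdeal : ℕ) : ℝ) ^ (-((((n : ℕ) : ℝ) - k) * σ)) ≤
        (2 : ℝ) ^ (k * σ) * ((2 : ℝ) ^ (-σ)) ^ (n : ℕ) := by
      have h9 : (0 : ℝ) ≤ ((n : ℕ) : ℝ) - k := by
        have : (k : ℝ) ≤ (n : ℕ) := by exact_mod_cast hkn
        linarith
      calc ((Ideal.absNorm q.asIdeal : ℕ) : ℝ) ^ (-((((n : ℕ) : ℝ) - k) * σ))
          ≤ (2 : ℝ) ^ (-((((n : ℕ) : ℝ) - k) * σ)) :=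
            Real.rpow_le_rpow_of_nonpos (by norm_num) hN (by nlinarith)
        _ = (2 : ℝ) ^ (k * σ) * ((2 : ℝ) ^ (-σ)) ^ (n : ℕ) := by
            rw [← Real.rpow_natCast, ← Real.rpow_mul (by norm_num), ← Real.rpow_add (by norm_num)]
            congr 1
            ring
    rw [h7]
    calc ‖cI (K := K) f (q, n)‖ * (((Ideal.absNorm q.asIdeal : ℕ) : ℝ) ^ (-(k * σ)) *
          ((Ideal.absNorm q.asIdeal : ℕ) : ℝ) ^ (-((((n : ℕ) : ℝ) - k) * σ)))
        ≤ C * (((Ideal.absNorm q.asIdeal : ℕ) : ℝ) ^ (-(k * σ)) *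
          ((2 : ℝ) ^ (k * σ) * ((2 : ℝ) ^ (-σ)) ^ (n : ℕ))) := by gcongr
      _ = _ := by ring
  · positivity

theorem rterm_le (c : HeightOneSpectrum (𝓞 K) × ℕ+ → ℂ) (γ : ℝ) {T : ℝ} (hT : 0 < T)
    (x : HeightOneSpectrum (𝓞 K) × ℕ+) :
    ‖rterm (lamI K) c γ T x‖ ≤ (Real.exp (Real.exp 0) + 1) * ‖c x‖ := by
  unfold rterm
  rw [norm_mul, norm_mul, Complex.norm_exp_ofReal_mul_I, mul_one, Complex.norm_real,
    Real.norm_eq_abs]
  have hv : 0 ≤ lamI K x / T := div_nonneg (lamI_nonneg x) hT.le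
  have h1 := Pool.Agent.W189.ML.om_le (a := 0) (v := lamI K x / T) le_rfl hv
  rw [zero_mul, neg_zero, Real.exp_zero, mul_one] at h1
  rw [abs_of_nonneg (om_nonneg' hv), mul_comm, Real.exp_zero]
  exact mul_le_mul_of_nonneg_right h1 (norm_nonneg _)

theorem fib_sum (F : HeightOneSpectrum (𝓞 K) × ℕ+ → ℂ) (k : ℕ+) :
    ∑' x, (if x.2 = k then F x else 0) = ∑' p, F (p, k) := by
  have hinj : Function.Injective fun p : HeightOneSpectrum (𝓞 K) => (p, k) := fun a b h =>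
    (Prod.mk.inj h).1
  have h1 := hinj.tsum_eq (f := fun x => if x.2 = k then F x else 0) (by
    intro x hx
    rw [Function.mem_support] at hx
    have hk : x.2 = k := by
      by_contra h
      exact hx (if_neg h)
    exact ⟨x.1, Prod.ext rfl hk.symm⟩)
  rw [← h1]
  simp

/-- the sum over the powers `≥ k` -/
noncomputable def tl (k : ℕ) (F : HeightOneSpectrum (𝓞 K) × ℕ+ → ℂ) : ℂ :=
  ∑' x, if k ≤ (x.2 : ℕ) then F x else 0

theorem tl_bound (f : (L ≃ₐ[K] L) → ℂ) (s₀ : ℂ) (k : ℕ) (hk : 1 < k * s₀.re) (γ : ℝ) :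
    ∃ B : ℝ, ∀ T : ℝ, 0 < T → ‖tl k (rterm (lamI K) (SC.logTerm K L f s₀) γ T)‖ ≤ B := by
  have h1 := (tail_summable f s₀ k hk).mul_left (Real.exp (Real.exp 0) + 1)
  refine ⟨_, fun T hT => tsum_of_norm_bounded h1.hasSum fun x => ?_⟩
  split_ifs with h
  · exact rterm_le _ γ hT x
  · simp

theorem summable_ite {F : HeightOneSpectrum (𝓞 K) × ℕ+ → ℂ} (hF : Summable fun x => ‖F x‖)
    (p : HeightOneSpectrum (𝓞 K) × ℕ+ → Prop) [DecidablePred p] :
    Summable fun x => if p x then F x else 0 := by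
  refine Summable.of_norm_bounded hF fun x => ?_
  split_ifs
  · exact le_rfl
  · simp

theorem split1 {F : HeightOneSpectrum (𝓞 K) × ℕ+ → ℂ} (hF : Summable fun x => ‖F x‖) :
    ∑' x, F x = ∑' p, F (p, 1) + tl 2 F := by
  unfold tl
  rw [← fib_sum F 1, ← (summable_ite hF _).tsum_add (summable_ite hF _)]
  refine tsum_congr fun x => ?_
  by_cases h : x.2 = 1
  · have h2 : ¬ 2 ≤ (x.2 : ℕ) := by rw [h]; norm_num
    rw [if_pos h, if_neg h2, add_zero]
  · have h2 : 2 ≤ (x.2 : ℕ) := by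
      have h3 := x.2.pos
      have h4 : (x.2 : ℕ) ≠ 1 := fun h5 => h (PNat.eq h5)
      omega
    rw [if_neg h, if_pos h2, zero_add]

theorem split2 {F : HeightOneSpectrum (𝓞 K) × ℕ+ → ℂ} (hF : Summable fun x => ‖F x‖) :
    tl 2 F = ∑' p, F (p, 2) + tl 3 F := by
  unfold tl
  rw [← fib_sum F 2, ← (summable_ite hF _).tsum_add (summable_ite hF _)]
  refine tsum_congr fun x => ?_
  by_cases h : x.2 = 2
  · have h2 : ¬ 3 ≤ (x.2 : ℕ) := by rw [h]; norm_num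
    have h1 : 2 ≤ (x.2 : ℕ) := by rw [h]; norm_num
    rw [if_pos h, if_neg h2, if_pos h1, add_zero]
  · by_cases h3 : 3 ≤ (x.2 : ℕ)
    · have h1 : 2 ≤ (x.2 : ℕ) := by omega
      rw [if_neg h, if_pos h3, if_pos h1, zero_add]
    · have h1 : ¬ 2 ≤ (x.2 : ℕ) := by
        intro h5
        have h4 : (x.2 : ℕ) ≠ 2 := fun h6 => h (PNat.eq h6)
        omega
      rw [if_neg h, if_neg h3, if_neg h1, zero_add]

variable [IsGalois K L]

/-- the squares -/
theorem square_bound {f : (L ≃ₐ[K] L) → ℂ} (hf : ∀ g x : L ≃ₐ[K] L, f (x * g * x⁻¹) = f g)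
    (s₀ : ℂ) (γ : ℝ) : ∃ B : ℝ, ∀ T : ℝ, 0 < T →
      ‖∑' p, rterm (lamI K) (SC.logTerm K L f s₀) γ T (p, 2) -
        1 / 2 * PA (fun g => f (g ^ 2)) (2 * s₀) γ (T / 2)‖ ≤ B := by
  classical
  set R := (ram_finite (K := K) (L := L)).toFinset with hR
  set c := SC.logTerm K L f s₀ with hc
  set c' := SC.logTerm K L (fun g => f (g ^ 2)) (2 * s₀) with hc'
  refine ⟨∑ p ∈ R, ((Real.exp (Real.exp 0) + 1) * ‖c (p, 2)‖ +
    (Real.exp (Real.exp 0) + 1) * ‖c' (p, 1)‖), fun T hT => ?_⟩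
  have hT2 : 0 < T / 2 := by positivity
  have hinj : ∀ k : ℕ+, Function.Injective fun p : HeightOneSpectrum (𝓞 K) => (p, k) :=
    fun k a b h => (Prod.mk.inj h).1
  have s1 : Summable fun p => rterm (lamI K) c γ T (p, 2) :=
    (SA_summable f s₀ γ hT).of_norm.comp_injective (hinj 2)
  have s2 : Summable fun p => rterm (lamI K) c' γ (T / 2) (p, 1) :=
    (SA_summable (fun g => f (g ^ 2)) (2 * s₀) γ hT2).of_norm.comp_injective (hinj 1)
  unfold PA
  rw [← hc', ← tsum_mul_left, ← s1.tsum_sub (s2.mul_left _)]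
  have hzero : ∀ p ∉ R, rterm (lamI K) c γ T (p, 2) - 1 / 2 * rterm (lamI K) c' γ (T / 2) (p, 1) = 0 := by
    intro p hp
    have hp1 : p.asIdeal.ramificationIdxIn (𝓞 L) = 1 := by
      by_contra h
      exact hp ((Set.Finite.mem_toFinset _).2 h)
    obtain ⟨σ, hσ⟩ := frobMean_unr hp1
    have e1 := hσ f hf 2
    have e2 := hσ (fun g => f (g ^ 2)) (fun g x => by
      rw [conj_pow, hf]) 1
    rw [pow_one] at e2
    have h0 : c (p, 2) = 1 / 2 * c' (p, 1) := by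
      rw [hc, hc']
      unfold SC.logTerm
      show SC.frobMean K L f p.asIdeal 2 / _ = 1 / 2 * (SC.frobMean K L _ p.asIdeal 1 / _)
      rw [e1, e2]
      push_cast
      rw [one_mul, one_mul]
      have h2 : ((Ideal.absNorm p.asIdeal : ℕ) : ℂ) ^ (2 * s₀) ≠ 0 := by
        rw [Complex.cpow_ne_zero_iff]
        left
        have := SC.two_le_absNorm p
        exact_mod_cast (by omega : Ideal.absNorm p.asIdeal ≠ 0)
      field_simp
    unfold rterm
    have h3 : lamI K (p, 1) / (T / 2) = lamI K (p, 2) / T := by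
      unfold lamI
      push_cast
      field_simp
    rw [h3, h0]
    ring
  rw [tsum_eq_sum hzero]
  refine norm_sum_le_of_le _ fun p _ => ?_
  refine (norm_sub_le _ _).trans (add_le_add (rterm_le _ γ hT _) ?_)
  rw [norm_mul]
  have h1 := rterm_le c' γ hT2 (p, 1)
  have h2 := norm_nonneg (rterm (lamI K) c' γ (T / 2) (p, 1))
  have h4 : ‖(1 / 2 : ℂ)‖ = 1 / 2 := by norm_num
  rw [h4]
  linarith

/-- **the sum over the primes in terms of the sums over the powers** -/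
theorem prime_sum {f : (L ≃ₐ[K] L) → ℂ} (hf : ∀ g x : L ≃ₐ[K] L, f (x * g * x⁻¹) = f g)
    {s₀ : ℂ} (hs₀ : 1 < 3 * s₀.re) (γ : ℝ) : ∃ B : ℝ, ∀ T : ℝ, 0 < T →
      ‖PA f s₀ γ T - (SA f s₀ γ T - 1 / 2 * SA (fun g => f (g ^ 2)) (2 * s₀) γ (T / 2))‖ ≤ B := by
  obtain ⟨B₁, h1⟩ := square_bound hf s₀ γ
  obtain ⟨B₂, h2⟩ := tl_bound f s₀ 3 (by push_cast; linarith) γ
  obtain ⟨B₃, h3⟩ := tl_bound (fun g => f (g ^ 2)) (2 * s₀) 2 (by
    have : (2 * s₀).re = 2 * s₀.re := by simp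
    rw [this]
    push_cast
    linarith) γ
  refine ⟨1 / 2 * B₃ + B₁ + B₂, fun T hT => ?_⟩
  have hT2 : 0 < T / 2 := by positivity
  have e1 := split1 (SA_summable f s₀ γ hT)
  have e2 := split2 (SA_summable f s₀ γ hT)
  have e3 := split1 (SA_summable (fun g => f (g ^ 2)) (2 * s₀) γ hT2)
  have e4 : PA f s₀ γ T - (SA f s₀ γ T - 1 / 2 * SA (fun g => f (g ^ 2)) (2 * s₀) γ (T / 2)) =
      1 / 2 * tl 2 (rterm (lamI K) (SC.logTerm K L (fun g => f (g ^ 2)) (2 * s₀)) γ (T / 2)) -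
      (∑' p, rterm (lamI K) (SC.logTerm K L f s₀) γ T (p, 2) -
        1 / 2 * PA (fun g => f (g ^ 2)) (2 * s₀) γ (T / 2)) -
      tl 3 (rterm (lamI K) (SC.logTerm K L f s₀) γ T) := by
    unfold SA
    rw [e1, e2, e3]
    unfold PA
    ring
  rw [e4]
  refine (norm_sub_le _ _).trans (add_le_add ((norm_sub_le _ _).trans (add_le_add ?_ (h1 T hT)))
    (h2 T hT))
  rw [norm_mul]
  have := h3 _ hT2
  norm_num
  linarith

theorem div_class {f : (L ≃ₐ[K] L) → ℂ} (hf : ∀ σ g, Div σ g → f g = f σ) (g x : L ≃ₐ[K] L) :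
    f (x * g * x⁻¹) = f g := by
  refine hf g _ ⟨x, ?_⟩
  congr 1
  group

theorem div_sq {f : (L ≃ₐ[K] L) → ℂ} (hf : ∀ σ g, Div σ g → f g = f σ) (σ g : L ≃ₐ[K] L)
    (h : Div σ g) : f (g ^ 2) = f (σ ^ 2) := by
  obtain ⟨x, hx⟩ := h
  refine hf _ _ ⟨x, ?_⟩
  have h1 : x⁻¹ * g ^ 2 * x = (x⁻¹ * g * x) ^ 2 := by
    rw [pow_two, pow_two]
    group
  rw [h1]
  have key : ∀ a b : L ≃ₐ[K] L, Subgroup.zpowers a = Subgroup.zpowers b →
      Subgroup.zpowers (a ^ 2) ≤ Subgroup.zpowers (b ^ 2) := by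
    intro a b hab
    rw [Subgroup.zpowers_le]
    have h2 : a ∈ Subgroup.zpowers b := by
      rw [← hab]
      exact Subgroup.mem_zpowers a
    obtain ⟨j, rfl⟩ := Subgroup.mem_zpowers_iff.1 h2
    refine Subgroup.mem_zpowers_iff.2 ⟨j, ?_⟩
    group
  exact le_antisymm (key _ _ hx) (key _ _ hx.symm)

/-- **The law for the primes.** -/
theorem prime_law {f : (L ≃ₐ[K] L) → ℂ} (hf : ∀ σ g, Div σ g → f g = f σ)
    {Z : IntermediateField K L → ℂ → ℂ} (hZ : ∀ F, (∀ s, MeromorphicAt (Z F) s) ∧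
      ∀ s : ℂ, 1 < s.re → Z F s = dedekindZeta F s) {s₀ : ℂ} (hs₀ : 1 < 3 * s₀.re)
    {γ : ℝ} (hγ : Real.pi / 2 < γ) :
    (fun T : ℝ => PA f s₀ γ T + (AV f (ordF Z s₀) -
      1 / 2 * AV (fun g => f (g ^ 2)) (ordF Z (2 * s₀))) * Real.log T) =O[atTop]
        fun _ : ℝ => (1 : ℝ) := by
  obtain ⟨r, -, h1⟩ := rat_law hf hZ s₀ hγ
  obtain ⟨r', -, h2⟩ := rat_law (div_sq hf) hZ (2 * s₀) hγ
  obtain ⟨B, hB⟩ := prime_sum (div_class hf) hs₀ γ
  have ho : (fun T : ℝ => 1 / T) =O[atTop] fun _ : ℝ => (1 : ℝ) := by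
    refine IsBigO.of_bound 1 ?_
    filter_upwards [eventually_ge_atTop 1] with T hT
    rw [Real.norm_eq_abs, abs_of_pos (by positivity), norm_one, mul_one]
    exact (div_le_one (by linarith)).2 hT
  have hhalf : Tendsto (fun T : ℝ => T / 2) atTop atTop := tendsto_id.atTop_div_const (by norm_num)
  have h3 := h1.trans ho
  have h4 := (h2.trans ho).comp_tendsto hhalf
  have h5 : (fun T : ℝ => PA f s₀ γ T - (SA f s₀ γ T -
      1 / 2 * SA (fun g => f (g ^ 2)) (2 * s₀) γ (T / 2))) =O[atTop] fun _ : ℝ => (1 : ℝ) := by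
    refine IsBigO.of_bound B ?_
    filter_upwards [eventually_gt_atTop 0] with T hT
    rw [norm_one, mul_one]
    exact hB T hT
  have hc : ∀ a : ℂ, (fun _ : ℝ => a) =O[atTop] fun _ : ℝ => (1 : ℝ) := fun a =>
    isBigO_const_const a one_ne_zero _
  have h6 := ((h5.add h3).sub (h4.const_mul_left (1 / 2))).add
    (hc (AV f (ordF Z s₀) * Lam γ + AV f r - 1 / 2 * (AV (fun g => f (g ^ 2)) (ordF Z (2 * s₀)) *
      (Real.log 2 + Lam γ) + AV (fun g => f (g ^ 2)) r')))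
  refine h6.congr' ?_ (EventuallyEq.refl _ _)
  filter_upwards [eventually_gt_atTop 0] with T hT
  have hlog : Real.log (T / 2) = Real.log T - Real.log 2 := Real.log_div hT.ne' (by norm_num)
  simp only [Function.comp_def]
  rw [hlog]
  push_cast
  ring

end Pool.Agent.Run7.h453.CB
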